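import Pool.Agent.H547U2.Asm
import Pool.Agent.H547U2.T_AFL
import Pool.Agent.H547U2.T_CJL
import Pool.Agent.H547U2.T_DJL
import Pool.Agent.H547U2.T_LOb
import Pool.Agent.H547U2.T_TA
import Pool.Agent.H547U2.T_TB
import Pool.Agent.H547U2.T_TT
import Pool.Agent.H547U2.T_UP

/-!
# Minimum circuit size over sets of Boolean functions

`tt n f`: truth table. `Computes B n s f`: `f` has a circuit with at most `s` gates from `B`;
`Comp0 n s f`: the same for AND, OR, NOT gates (AND and OR gates counted). `SizeOver B`,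
`SizeDM`: the minimum size can be approximated, up to a constant factor and a linear term in the
number of variables, in polynomial time from the truth table.
-/

set_option autoImplicit false

namespace Pool.Agent.Results.MP_a221bc_lc.GateSetDichotomy

open Pool.Agent.H547R6 Pool.Agent.H547R7 Pool.Agent.H547R8 Pool.Agent.NPC Pool.Agent.H547S1
open Pool.Agent.H547U2

/-- **Dichotomy for minimum circuit size over gate sets.** -/
theorem result (B : Set BFun) (hB : B.Finite) :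
    ((B ⊆ Aff ∨ B ⊆ Conj ∨ B ⊆ Disj) → SizeOver B) ∧
    (¬ (B ⊆ Aff ∨ B ⊆ Conj ∨ B ⊆ Disj) →
      (∃ (c : ℕ) (T : List Bool → List Bool), PolyTime T ∧ ∀ (n : ℕ) (f : BF n), 1 ≤ n →
        ∃ g : BF (n + n + 2), T (tt n f) = tt (n + n + 2) g ∧
          (∀ s, Comp0 n s f → Computes B (n + n + 2) (c * (s + n)) g) ∧
          ∀ s, Computes B (n + n + 2) s g → Comp0 n (c * (s + 1)) f) ∧
      (SizeOver B → SizeDM)) := by
  refine ⟨size_easy w_AFL w_CJL w_DJL w_TA B, fun h => ?_⟩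
  have hA : ¬ B ⊆ Aff := fun h1 => h (Or.inl h1)
  have hC : ¬ B ⊆ Conj := fun h1 => h (Or.inr (Or.inl h1))
  have hD : ¬ B ⊆ Disj := fun h1 => h (Or.inr (Or.inr h1))
  refine ⟨?_, size_hard w_UP w_LO w_TT w_TB B hB hA hC hD⟩
  obtain ⟨τ, hτ⟩ := t_C5 B hA hC hD
  obtain ⟨c₁, h1⟩ := w_UP B τ hτ
  obtain ⟨c₂, h2⟩ := w_LO B τ hB
  obtain ⟨T, hT, hTT⟩ := w_TT τ
  refine ⟨2 * c₁ + c₂, T, hT, fun n f hn => ⟨GG τ n f, hTT n f, fun s hf => ?_, fun s hg => ?_⟩⟩
  · obtain ⟨l, hl, hlen, hav⟩ := h1 n s f hf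
    refine ⟨l, hl, hlen.trans ?_, hav⟩
    have : c₁ * (s + n + 1) ≤ c₁ * (2 * (s + n)) := Nat.mul_le_mul_left _ (by omega)
    nlinarith [Nat.zero_le (c₂ * (s + n))]
  · obtain ⟨l, s', hl, hs', hav⟩ := h2 n s f hn hg
    refine ⟨l, s', hl, hs'.trans ?_, hav⟩
    nlinarith [Nat.zero_le (c₁ * (s + 1))]

end Pool.Agent.Results.MP_a221bc_lc.GateSetDichotomy
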